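import Mathlib
import Pool.Agent.Lib.MP_ea1cff_co.Defs
import Pool.Agent.Lib.MP_ea1cff_co.Poly
import Pool.Agent.Lib.MP_ea1cff_co.Tri
import Pool.Agent.Lib.MP_ea1cff_co.Family

/-!
For every `r ≥ 3` and `n ≥ 3r - 1` the Kneser hypergraph `KG^r(T_n)` of the triangulations of the
`n`-gon can be properly coloured with `⌊(n-3)/(r-1)⌋` colours. Hence its chromatic number is
smaller than `⌈(n-r)/(r-1)⌉` for infinitely many `n`, for every `r ≥ 3`.
-/

set_option autoImplicit false

namespace Pool.Agent.Results.MP_ea1cff_co.BetterColouring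

open Finset Pool.Agent.Lib.MPea1cff

open Classical in
/-- The colouring, as a natural number. -/
noncomputable def col (r n : ℕ) (T : Finset (ℕ × ℕ)) : ℕ :=
  if h : ∃ v, v ∈ ears n T ∧ 3 * r - 1 ≤ v then 2 + (h.choose - (3 * r - 1)) / (r - 1)
  else if ZZ r (ears n T) then 0 else 1

lemma col_lt {r n : ℕ} (hr : 3 ≤ r) (hn : 3 * r - 1 ≤ n) (T : Finset (ℕ × ℕ)) :
    col r n T < (n - 3) / (r - 1) := by
  have hK : (n - 3) / (r - 1) = 2 + (n - 2 * r - 1) / (r - 1) := by
    have h1 : n - 3 = (n - 2 * r - 1) + (r - 1) * 2 := by omega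
    rw [h1, Nat.add_mul_div_left _ _ (by omega)]
    omega
  unfold col
  split_ifs with h h'
  · have hv := h.choose_spec
    have hvn := (mem_ears.1 hv.1).1
    rw [hK]
    have h2 : n - 2 * r - 1 = (n - 3 * r) + (r - 1) * 1 := by omega
    rw [h2, Nat.add_mul_div_left _ _ (by omega)]
    have h3 : (h.choose - (3 * r - 1)) / (r - 1) ≤ (n - 3 * r) / (r - 1) :=
      Nat.div_le_div_right (by omega)
    omega
  · rw [hK]; exact Nat.lt_of_lt_of_le (by norm_num) (Nat.le_add_right 2 _)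
  · rw [hK]; exact Nat.lt_of_lt_of_le (by norm_num) (Nat.le_add_right 2 _)

lemma proper {r n : ℕ} (hr : 3 ≤ r) (hn : 3 * r - 1 ≤ n) {S : Finset (Finset (ℕ × ℕ))}
    (hS : IsEdge r n S) : ¬ ∃ κ, ∀ T ∈ S, col r n T = κ := by
  rintro ⟨κ, hκ⟩
  obtain ⟨hT, hcard, hdis⟩ := hS
  set F := S.image (ears n) with hF
  have hne : ∀ T ∈ S, (ears n T).Nonempty := by
    intro T h
    rw [← Finset.card_pos]
    have := two_le_card_ears (hT T h) (by omega)
    omega
  have hinj : Set.InjOn (ears n) (S : Set (Finset (ℕ × ℕ))) := by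
    intro T h T' h' heq
    by_contra hcon
    have h1 := ears_disjoint (n := n) (hdis T h T' h' hcon)
    rw [heq, Finset.disjoint_self_iff_empty] at h1
    have := hne T' h'
    rw [h1] at this
    exact absurd this (by simp)
  have hFcard : F.card = r := by
    rw [hF, Finset.card_image_of_injOn hinj, hcard]
  have hmem : ∀ E ∈ F, ∃ T ∈ S, ears n T = E := fun E hE => Finset.mem_image.1 hE
  have hPD : PD F := by
    intro E hE E' hE' hne'
    obtain ⟨T, h, rfl⟩ := hmem E hE
    obtain ⟨T', h', rfl⟩ := hmem E' hE'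
    exact ears_disjoint (hdis T h T' h' (fun heq => hne' (by rw [heq])))
  have hCR : CR F := by
    intro u v huv huvF E hE hEne
    obtain ⟨T, h, hTe⟩ := hmem _ huvF
    obtain ⟨T', h', rfl⟩ := hmem E hE
    have hTT' : T ≠ T' := by
      rintro rfl; exact hEne hTe
    exact both_sides (hT T h) (hT T' h') (by omega) (hdis T h T' h' hTT') huv hTe
  have h2 : ∀ E ∈ F, 2 ≤ E.card := by
    intro E hE
    obtain ⟨T, h, rfl⟩ := hmem E hE
    exact two_le_card_ears (hT T h) (by omega)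
  rcases Nat.lt_or_ge κ 2 with hκ2 | hκ2
  · -- the two special classes
    have hno : ∀ T ∈ S, ¬ ∃ v, v ∈ ears n T ∧ 3 * r - 1 ≤ v := by
      intro T h hex
      have := hκ T h
      unfold col at this
      rw [dif_pos hex] at this
      have h3 := Nat.le_add_right 2 ((hex.choose - (3 * r - 1)) / (r - 1))
      rw [this] at h3
      omega
    have hsub : ∀ E ∈ F, ∀ x ∈ E, x < 3 * r - 1 := by
      intro E hE x hx
      obtain ⟨T, h, rfl⟩ := hmem E hE
      by_contra hcon
      exact hno T h ⟨x, hx, by omega⟩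
    have hcol : ∀ T ∈ S, (ZZ r (ears n T) ∧ κ = 0) ∨ (¬ ZZ r (ears n T) ∧ κ = 1) := by
      intro T h
      have h1 := hκ T h
      unfold col at h1
      rw [dif_neg (hno T h)] at h1
      by_cases hz : ZZ r (ears n T)
      · left; rw [if_pos hz] at h1; exact ⟨hz, h1.symm⟩
      · right; rw [if_neg hz] at h1; exact ⟨hz, h1.symm⟩
    by_cases hκ0 : κ = 0
    · apply not_all_ZZ hr hFcard hPD hsub hCR
      intro E hE
      obtain ⟨T, h, rfl⟩ := hmem E hE
      rcases hcol T h with h1 | h1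
      · exact h1.1
      · omega
    · apply not_all_not_ZZ hr hFcard hPD hsub h2 hCR
      intro E hE
      obtain ⟨T, h, rfl⟩ := hmem E hE
      rcases hcol T h with h1 | h1
      · omega
      · exact h1.1
  · -- the ear classes
    have h1 := card_le_of_meets hPD
      (Ico (3 * r - 1 + (r - 1) * (κ - 2)) (3 * r - 1 + (r - 1) * (κ - 2) + (r - 1))) (by
        intro E hE
        obtain ⟨T, h, rfl⟩ := hmem E hE
        have h1 := hκ T h
        unfold col at h1
        by_cases hex : ∃ v, v ∈ ears n T ∧ 3 * r - 1 ≤ v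
        · rw [dif_pos hex] at h1
          refine ⟨hex.choose, hex.choose_spec.1, ?_⟩
          have h3 := hex.choose_spec.2
          have h4 : (hex.choose - (3 * r - 1)) / (r - 1) = κ - 2 := by
            rw [← h1, Nat.add_sub_cancel_left]
          rw [Nat.div_eq_iff (by omega)] at h4
          rw [Finset.mem_Ico]
          rw [Nat.mul_comm (r - 1) (κ - 2)]
          omega
        · rw [dif_neg hex] at h1
          split_ifs at h1 <;> omega)
    rw [Nat.card_Ico, hFcard] at h1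
    omega

/-- Main bound. -/
lemma colorable {r n : ℕ} (hr : 3 ≤ r) (hn : 3 * r - 1 ≤ n) :
    Colorable r n ((n - 3) / (r - 1)) := by
  refine ⟨fun T => ⟨col r n T, col_lt hr hn T⟩, ?_⟩
  intro S hS hall
  have hne : S.Nonempty := by
    rw [← Finset.card_pos, hS.2.1]; omega
  obtain ⟨T0, h0⟩ := hne
  apply proper hr hn hS
  refine ⟨col r n T0, fun T hT => ?_⟩
  have := hall T hT T0 h0
  simpa using this

/-- For all `r ≥ 3` and `n ≥ 3r-1`, `KG^r(T_n)` has a proper colouring with `⌊(n-3)/(r-1)⌋`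
colours; hence for every `r ≥ 3` the chromatic number is strictly smaller than
`⌈(n-r)/(r-1)⌉` for arbitrarily large `n`. -/
theorem result :
    (∀ r n : ℕ, 3 ≤ r → 3 * r - 1 ≤ n →
      Colorable r n ((n - 3) / (r - 1)) ∧ chi r n ≤ (n - 3) / (r - 1)) ∧
    (∀ r : ℕ, 3 ≤ r → ∀ n₀ : ℕ, ∃ n : ℕ, n₀ ≤ n ∧
      (chi r n : ℤ) < ⌈((n : ℚ) - r) / (r - 1)⌉) := by
  have main : ∀ r n : ℕ, 3 ≤ r → 3 * r - 1 ≤ n →
      Colorable r n ((n - 3) / (r - 1)) ∧ chi r n ≤ (n - 3) / (r - 1) := fun r n hr hn =>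
    ⟨colorable hr hn, Nat.sInf_le (colorable hr hn)⟩
  refine ⟨main, ?_⟩
  intro r hr n₀
  set t := n₀ + 3 with ht
  have hrt : n₀ + 3 ≤ (r - 1) * t := by
    calc n₀ + 3 = 1 * t := by rw [ht, one_mul]
      _ ≤ (r - 1) * t := Nat.mul_le_mul_right _ (by omega)
  have hrt3 : (r - 1) * 3 ≤ (r - 1) * t := Nat.mul_le_mul_left _ (by omega)
  refine ⟨2 + (r - 1) * t, by omega, ?_⟩
  have h1 := (main r (2 + (r - 1) * t) hr (by omega)).2
  have h2 : (2 + (r - 1) * t - 3) / (r - 1) ≤ t - 1 := by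
    rw [Nat.div_le_iff_le_mul_add_pred (by omega)]
    have h3 : (r - 1) * t = (r - 1) * (t - 1) + (r - 1) := by
      have : t = (t - 1) + 1 := by omega
      conv_lhs => rw [this]
      rw [Nat.mul_add, Nat.mul_one]
    omega
  have h4 : chi r (2 + (r - 1) * t) ≤ t - 1 := le_trans h1 h2
  rw [Int.lt_ceil]
  have hr1 : (0 : ℚ) < (r : ℚ) - 1 := by
    have : (3 : ℚ) ≤ r := by exact_mod_cast hr
    linarith
  rw [lt_div_iff₀ hr1]
  have h5 : ((chi r (2 + (r - 1) * t) : ℤ) : ℚ) ≤ (t : ℚ) - 1 := by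
    have h6 : ((t - 1 : ℕ) : ℚ) = (t : ℚ) - 1 := by
      rw [Nat.cast_sub (by omega)]; simp
    rw [← h6]
    exact_mod_cast h4
  have h7 : ((2 + (r - 1) * t : ℕ) : ℚ) = 2 + ((r : ℚ) - 1) * t := by
    push_cast [Nat.cast_sub (show 1 ≤ r by omega)]
    ring
  rw [h7]
  have h8 := mul_le_mul_of_nonneg_right h5 hr1.le
  linarith

end Pool.Agent.Results.MP_ea1cff_co.BetterColouring
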